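import Pool.Agent.H93.Clu.Mut

/-!
The non-commuting case: three mutations `j, k, j` with `b_{jk} = b > 0`.
-/

namespace Pool.Agent.H93.Clu

open Pool.Agent.H28.Clu

section Cat

variable {V : Type*} [DecidableEq V] [Fintype V]

lemma mon_update (x y : Pt V) (l : V) (h : ∀ i, i ≠ l → y.1 i = x.1 i) (α : V → ℤ) :
    mon y.1 α = y.1 l ^ α l * mon x.1 (Function.update α l 0) := by
  unfold mon
  rw [← Finset.mul_prod_erase Finset.univ _ (Finset.mem_univ l),
    ← Finset.mul_prod_erase Finset.univ (fun i => x.1 i ^ Function.update α l 0 i)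
      (Finset.mem_univ l), Function.update_self, zpow_zero, one_mul]
  congr 1
  refine Finset.prod_congr rfl fun i hi => ?_
  rw [Function.update_of_ne (Finset.ne_of_mem_erase hi), h i (Finset.ne_of_mem_erase hi)]

omit [Fintype V] in
lemma update_zero_of_eq {α : V → ℤ} {l : V} (h : α l = 0) : Function.update α l 0 = α := by
  rw [← h, Function.update_eq_self]

variable (B : V → V → ℤ) (j k : V) (b : ℕ)

/-- The positive part of the `k`-th column of `μ_j B`. -/
def be : V → ℤ := fun i => max (mutB B j i k) 0

/-- The negative part of the `k`-th column of `μ_j B`, with the entry at `j` removed. -/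
def nb : V → ℤ := Function.update (fun i => max (- mutB B j i k) 0) j 0

/-- The positive part of the `j`-th column of `μ_k μ_j B`. -/
def gp : V → ℤ := fun i => max (mutB (mutB B j) k i j) 0

/-- The negative part of the `j`-th column of `μ_k μ_j B`, with the entry at `k` removed. -/
def gn : V → ℤ := Function.update (fun i => max (- mutB (mutB B j) k i j) 0) k 0

/-- The variable at `k` after the mutations `j, k`. -/
noncomputable def q2 : LR V :=
  mono (- Pi.single k 1) * (mono (be B j k) + q1 B j ^ b * mono (nb B j k))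

/-- An auxiliary sum. -/
noncomputable def SS : LR V :=
  ∑ r ∈ Finset.range b, (mono (be B j k) + q1 B j ^ b * mono (nb B j k)) ^ r *
    mono (be B j k) ^ (b - 1 - r)

/-- The second factor of the variable at `j` after the mutations `j, k, j`. -/
noncomputable def q3' : LR V :=
  mono (be B j k) ^ b * mono (-((fun i => max (B i j) 0) - Pi.single j 1)) +
    q1 B j ^ (b - 1) * mono (nb B j k) * SS B j k b

/-- The variable at `j` after the mutations `j, k, j`. -/
noncomputable def q3 : LR V :=
  mono (gn B j k) * mono (b • (- Pi.single k 1)) * q3' B j k b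

variable {B j k b}

section Facts

variable (hB : ∀ i j, B j i = - B i j) (hjk : j ≠ k) (hb : B j k = b)

include hB in
omit [Fintype V] in
lemma diag_zero (i : V) : B i i = 0 := by have := hB i i; omega

include hb in
omit [Fintype V] in
lemma B1_jk : mutB B j j k = - (b : ℤ) := by simp [mutB, hb]

include hB hjk hb in
omit [Fintype V] in
lemma B1_kj : mutB B j k j = b := by simp [mutB, hjk.symm, hB j k, hb]

include hB in
omit [Fintype V] in
lemma B1_kk : mutB B j k k = 0 := diag_zero (mutB_skew hB j) k

include hB in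
omit [Fintype V] in
lemma B2_jj : mutB (mutB B j) k j j = 0 := diag_zero (mutB_skew (mutB_skew hB j) k) j

include hB hjk hb in
omit [Fintype V] in
lemma B2_kj : mutB (mutB B j) k k j = - (b : ℤ) := by
  have := B1_kj hB hjk hb
  rw [mutB, if_pos (Or.inl rfl), this]

include hB in
omit [Fintype V] in
lemma be_k : be B j k k = 0 := by simp [be, B1_kk hB]

include hb in
omit [Fintype V] in
lemma be_j : be B j k j = 0 := by simp [be, B1_jk hb]

include hB hjk hb in
omit [Fintype V] in
lemma B2_ij (i : V) (hi : i ≠ k) : mutB (mutB B j) k i j = - B i j + b * be B j k i := by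
  by_cases hij : i = j
  · subst hij
    rw [B2_jj hB, be_j hb, diag_zero hB]
    simp
  · have h1 : mutB B j i j = - B i j := by simp [mutB]
    have h2 := B1_kj hB hjk hb
    rw [mutB, if_neg (by rintro (h | h); exact hi h; exact hjk h), h1, h2]
    have h3 : max (-(b : ℤ)) 0 = 0 := max_eq_right (by omega)
    have h4 : max (b : ℤ) 0 = b := max_eq_left (by omega)
    rw [h3, h4, be]
    ring

include hB hjk hb in
omit [Fintype V] in
lemma gp_eq : gp B j k = gn B j k + b • (- Pi.single k 1) + (fun i => - B i j)
    + b • (be B j k) := by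
  funext i
  simp only [Pi.add_apply, Pi.smul_apply, Pi.neg_apply]
  simp only [nsmul_eq_mul]
  by_cases hi : i = k
  · subst hi
    rw [be_k hB, gn, Function.update_self, Pi.single_eq_same, gp]
    show max (mutB (mutB B j) i i j) 0 = _
    rw [B2_kj hB hjk hb, hB j i, hb]
    rw [max_eq_right (by omega)]
    ring
  · rw [gn, Function.update_of_ne hi, Pi.single_eq_of_ne hi, gp]
    have h1 := B2_ij hB hjk hb i hi
    rw [h1]
    rcases le_total (- B i j + b * be B j k i) 0 with h | h
    · rw [max_eq_right h, max_eq_left (by omega)]; ring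
    · rw [max_eq_left h, max_eq_right (by omega)]; ring

include hb in
lemma mon_t1_be (x : Pt V) : mon (mutPt B j x).1 (be B j k) = mon x.1 (be B j k) := by
  rw [mon_update x (mutPt B j x) j (fun i hi => mutPt_of_ne B hi x), be_j hb, zpow_zero, one_mul,
    update_zero_of_eq (be_j hb)]

include hb in
lemma mon_t1_nb (x : Pt V) : mon (mutPt B j x).1 (fun i => max (- mutB B j i k) 0)
    = ev x (q1 B j) ^ b * mon x.1 (nb B j k) := by
  rw [mon_update x (mutPt B j x) j (fun i hi => mutPt_of_ne B hi x), B1_jk hb, neg_neg,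
    max_eq_left (by omega), zpow_natCast, ev_q1, nb]

include hjk hb in
lemma ev_q2 (x : Pt V) :
    ev x (q2 B j k b) = (mutPt (mutB B j) k (mutPt B j x)).1 k := by
  rw [mutPt_self, exch_eq, mon_t1_nb hb, mutPt_of_ne B hjk.symm]
  rw [show (fun i => max (mutB B j i k) 0) = be B j k from rfl, mon_t1_be hb]
  rw [q2, map_mul, map_add, map_mul, map_pow, ev_mono, ev_mono, ev_mono, ← Pi.single_neg,
    mon_single, zpow_neg_one]
  ring

omit [Fintype V] in
lemma q1_mul_inv : q1 B j * mono (-((fun i => max (B i j) 0) - Pi.single j 1))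
    = 1 + mono (fun i => - B i j) := by
  rw [q1, mul_right_comm, mono_mul_neg, one_mul]

include hB hjk hb in
omit [Fintype V] in
lemma q1_mul_q3 (hb0 : 0 < b) :
    q1 B j * q3 B j k b = mono (gp B j k) + q2 B j k b ^ b * mono (gn B j k) := by
  have hS : (q1 B j ^ b * mono (nb B j k)) * SS B j k b
      = (mono (be B j k) + q1 B j ^ b * mono (nb B j k)) ^ b - mono (be B j k) ^ b := by
    rw [← (Commute.all _ _).mul_geom_sum₂, SS]
    congr 1
    ring
  have hq : q1 B j * q3' B j k b = mono (fun i => - B i j) * mono (be B j k) ^ b +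
      (mono (be B j k) + q1 B j ^ b * mono (nb B j k)) ^ b := by
    have e1 : q1 B j * q3' B j k b
        = mono (be B j k) ^ b *
            (q1 B j * mono (-((fun i => max (B i j) 0) - Pi.single j 1)))
          + (q1 B j ^ b * mono (nb B j k)) * SS B j k b := by
      rw [q3']
      obtain ⟨c, rfl⟩ : ∃ c, b = c + 1 := ⟨b - 1, by omega⟩
      rw [Nat.add_sub_cancel]
      ring
    rw [e1, hS, q1_mul_inv]
    ring
  rw [gp_eq hB hjk hb, mono_add, mono_add, mono_add, mono_nsmul b (be B j k), q2, mul_pow,
    ← mono_nsmul b (- Pi.single k 1), q3]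
  calc q1 B j * (mono (gn B j k) * mono (b • -Pi.single k 1) * q3' B j k b)
      = mono (gn B j k) * mono (b • -Pi.single k 1) * (q1 B j * q3' B j k b) := by ring
    _ = _ := by rw [hq]; ring

include hB hjk hb in
lemma ev_q3 (hb0 : 0 < b) (x : Pt V) :
    ev x (q3 B j k b) =
      (mutPt (mutB (mutB B j) k) j (mutPt (mutB B j) k (mutPt B j x))).1 j := by
  have h0 : 0 < ev x (q1 B j) := by rw [ev_q1]; exact (mutPt B j x).2 j
  rw [mutPt_self, mutPt_of_ne _ hjk, ← ev_q1, eq_div_iff h0.ne', mul_comm, ← map_mul,
    q1_mul_q3 hB hjk hb hb0, exch_eq]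
  have e1 : ∀ α : V → ℤ, α j = 0 →
      mon (mutPt (mutB B j) k (mutPt B j x)).1 α
        = ev x (q2 B j k b) ^ α k * mon x.1 (Function.update α k 0) := by
    intro α hα
    rw [mon_update (mutPt B j x) (mutPt (mutB B j) k (mutPt B j x)) k
      (fun i hi => mutPt_of_ne _ hi _), ← ev_q2 hjk hb]
    congr 1
    rw [mon_update x (mutPt B j x) j (fun i hi => mutPt_of_ne B hi x),
      Function.update_of_ne hjk, hα, zpow_zero, one_mul, update_zero_of_eq]
    rw [Function.update_of_ne hjk, hα]
  rw [e1 _ (by simp [B2_jj hB]), e1 _ (by simp [B2_jj hB]), map_add, map_mul, map_pow, ev_mono,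
    ev_mono, B2_kj hB hjk hb, neg_neg]
  have h3 : max (-(b : ℤ)) 0 = 0 := max_eq_right (by omega)
  have h4 : max (b : ℤ) 0 = b := max_eq_left (by omega)
  rw [h3, h4, zpow_zero, one_mul, zpow_natCast]
  congr 1
  congr 1
  symm
  exact update_zero_of_eq (by
    show max (mutB (mutB B j) k k j) 0 = 0
    rw [B2_kj hB hjk hb, h3])

omit [Fintype V] in
lemma rel_q1_q2 (hb0 : 0 < b) : Rel (q1 B j) (q2 B j k b) := by
  rw [q2]
  apply Rel.mul (Rel.of_isUnit (isUnit_mono _))
  apply Rel.of_isCoprime
  obtain ⟨c, rfl⟩ : ∃ c, b = c + 1 := ⟨b - 1, by omega⟩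
  refine ⟨- (q1 B j ^ c * mono (nb B j k)) * mono (-(be B j k)), mono (-(be B j k)), ?_⟩
  have h := mono_mul_neg (be B j k)
  calc _ = mono (be B j k) * mono (-(be B j k)) := by ring
    _ = 1 := h

include hB hjk hb in
lemma rel_q1_q3 (hb0 : 0 < b) : Rel (q1 B j) (q3 B j k b) := by
  rw [q3]
  apply Rel.mul (Rel.mul (Rel.of_isUnit (isUnit_mono _)) (Rel.of_isUnit (isUnit_mono _)))
  obtain ⟨c, rfl⟩ : ∃ c, b = c + 1 := ⟨b - 1, by omega⟩
  cases c with
  | zero =>
    have hS : SS B j k (0 + 1) = 1 := by simp [SS]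
    have h2 : q3' B j k (0 + 1) = mono (nb B j k) * (1 + mono (fun i => B i k)) := by
      rw [q3', hS, mul_add, ← mono_add]
      have e : nb B j k + (fun i => B i k)
          = be B j k + -((fun i => max (B i j) 0) - Pi.single j 1) := by
        funext i
        simp only [Pi.add_apply, Pi.neg_apply, Pi.sub_apply]
        by_cases hij : i = j
        · subst hij
          rw [nb, Function.update_self, Pi.single_eq_same, be_j hb, diag_zero hB, hb]
          simp
        · rw [nb, Function.update_of_ne hij, Pi.single_eq_of_ne hij, be]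
          have h5 : mutB B j i k = B i k + max (B i j) 0 := by
            rw [mutB, if_neg (by rintro (h | h); exact hij h; exact hjk h.symm), hb]
            simp
          rw [h5]
          rcases le_total (B i k + max (B i j) 0) 0 with h | h
          · rw [max_eq_right h, max_eq_left (by omega)]; ring
          · rw [max_eq_left h, max_eq_right (by omega)]; ring
      rw [e, mono_add]
      simp only [zero_add, pow_one, Nat.sub_self, pow_zero, one_mul, mul_one]
      ring
    rw [h2]
    apply Rel.mul (Rel.of_isUnit (isUnit_mono _))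
    rw [q1]
    apply Rel.unit_left (isUnit_mono _)
    refine rel_key _ _ k ?_ (diag_zero hB k)
    show - B k j = 1
    rw [hB j k, hb]
    simp
  | succ c =>
    apply Rel.of_isCoprime
    rw [q3']
    have hu : IsUnit (mono (be B j k) ^ (c + 1 + 1) *
        mono (-((fun i => max (B i j) 0) - Pi.single j 1))) :=
      ((isUnit_mono _).pow _).mul (isUnit_mono _)
    obtain ⟨v, hv⟩ := hu.exists_right_inv
    refine ⟨- (q1 B j ^ c * mono (nb B j k) * SS B j k (c + 1 + 1)) * v, v, ?_⟩
    have e : c + 1 + 1 - 1 = c + 1 := by omega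
    rw [e]
    calc _ = (mono (be B j k) ^ (c + 1 + 1) *
        mono (-((fun i => max (B i j) 0) - Pi.single j 1))) * v := by ring
      _ = 1 := hv

end Facts

variable (B j k b) in
/-- The vector of substituted Laurent polynomials for the mutations `j, k, j`. -/
noncomputable def U3 : V → LR V :=
  Function.update (Function.update (fun i => mono (Pi.single i 1)) k (q2 B j k b)) j
    (q3 B j k b)

lemma cat_case (hB : ∀ i j, B j i = - B i j) (hjk : j ≠ k) (hb : B j k = b) (hb0 : 0 < b)
    {z : Pt V → ℝ} (h1 : ∃ L : LR V, ∀ x, z x = ev (mutPt B j x) L)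
    (h2 : ∃ L : LR V, ∀ x, z x =
      ev (mutPt (mutB (mutB B j) k) j (mutPt (mutB B j) k (mutPt B j x))) L) :
    ∃ D : LR V, ∀ x, z x = ev x D := by
  obtain ⟨L1, hL1⟩ := h1
  obtain ⟨L2, hL2⟩ := h2
  have hspec : ∀ x i, (mutPt (mutB (mutB B j) k) j (mutPt (mutB B j) k (mutPt B j x))).1 i
      = ev x (U3 B j k b i) := by
    intro x i
    by_cases hij : i = j
    · subst hij
      rw [U3, Function.update_self, ev_q3 hB hjk hb hb0]
    · rw [U3, Function.update_of_ne hij, mutPt_of_ne _ hij]
      by_cases hik : i = k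
      · subst hik
        rw [Function.update_self, ev_q2 hjk hb]
      · rw [Function.update_of_ne hik, mutPt_of_ne _ hik, mutPt_of_ne _ hij, ev_mono, mon_single,
          zpow_one]
  obtain ⟨m, A, hA⟩ := subst (U1 B j) (mutPt B j) (U1_spec B j) L1
  obtain ⟨n, C, hC⟩ := subst (U3 B j k b)
    (fun x => mutPt (mutB (mutB B j) k) j (mutPt (mutB B j) k (mutPt B j x))) hspec L2
  obtain ⟨u, hu, hu'⟩ := prod_U1 B j
  refine finish (W := ∏ i, U1 B j i) (W' := ∏ i, U3 B j k b i) (ev_prod_U1_pos B j) ?_
    ⟨m, A, fun x => by rw [hL1 x]; exact hA x⟩ ⟨n, C, fun x => by rw [hL2 x]; exact hC x⟩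
  rw [hu']
  apply Rel.unit_left hu
  apply Rel.prod
  intro i _
  by_cases hij : i = j
  · subst hij
    rw [U3, Function.update_self]
    exact rel_q1_q3 hB hjk hb hb0
  · rw [U3, Function.update_of_ne hij]
    by_cases hik : i = k
    · subst hik
      rw [Function.update_self]
      exact rel_q1_q2 hb0
    · rw [Function.update_of_ne hik]
      exact Rel.of_isUnit (isUnit_mono _)

end Cat

end Pool.Agent.H93.Clu
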