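import Pool.Agent.H93.Clu.Cat

/-!
The Laurent phenomenon for coefficient-free cluster algebras (skew-symmetric, any path).
-/

namespace Pool.Agent.H93.Clu

open Pool.Agent.H28.Clu

universe u

section Comm

variable {V : Type u} [DecidableEq V] [Fintype V]

lemma exch_mutB_col (B : V → V → ℤ) {j k : V} (hjk : j ≠ k) (h0 : B j k = 0) (x : V → ℝ) :
    exch (mutB B j) x k = exch B x k := by
  have h : ∀ a, mutB B j a k = B a k := by
    intro a
    unfold mutB
    by_cases h : a = j ∨ k = j
    · rw [if_pos h]
      rcases h with rfl | rfl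
      · rw [h0, neg_zero]
      · exact absurd rfl hjk
    · rw [if_neg h, h0]
      simp
  unfold exch
  simp only [h]

lemma mutPt_comm (B : V → V → ℤ) {j k : V} (hjk : j ≠ k) (h0 : B j k = 0) (h0' : B k j = 0)
    (x : Pt V) : mutPt (mutB B j) k (mutPt B j x) = mutPt (mutB B k) j (mutPt B k x) := by
  apply Subtype.ext
  funext i
  by_cases hik : i = k
  · subst hik
    rw [mutPt_self, mutPt_of_ne _ hjk.symm, mutPt_of_ne _ hjk.symm, mutPt_self,
      exch_mutB_col B hjk h0]
    rw [exch_congr B (y := x.1) i
      (fun l hl => mutPt_of_ne B (by rintro rfl; exact hl h0) x)]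
  · by_cases hij : i = j
    · subst hij
      rw [mutPt_self, mutPt_of_ne _ hik, mutPt_of_ne _ hik, mutPt_self,
        exch_mutB_col B hjk.symm h0']
      rw [exch_congr B (y := x.1) i
        (fun l hl => mutPt_of_ne B (by rintro rfl; exact hl h0') x)]
    · rw [mutPt_of_ne _ hik, mutPt_of_ne _ hij, mutPt_of_ne _ hij, mutPt_of_ne _ hik]

end Comm

section Ext

variable {V : Type u} [DecidableEq V] [Fintype V]

/-- The exchange matrix with one additional row and column attached to `j`. -/
def extB (B : V → V → ℤ) (j : V) : Option V → Option V → ℤ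
  | some a, some c => B a c
  | none, some c => if c = j then 1 else 0
  | some a, none => if a = j then -1 else 0
  | none, none => 0

omit [Fintype V] in
lemma extB_skew {B : V → V → ℤ} (hB : ∀ i j, B j i = - B i j) (j : V) :
    ∀ a c, extB B j c a = - extB B j a c := by
  intro a c
  cases a <;> cases c <;> simp only [extB, neg_zero]
  · split_ifs <;> simp
  · split_ifs <;> simp
  · exact hB _ _

/-- The point with an additional coordinate equal to `1`. -/
def extPt (x : Pt V) : Pt (Option V) :=
  ⟨fun o => o.elim 1 x.1, fun o => by cases o; exacts [one_pos, x.2 _]⟩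

lemma cl_ext (p : List V) : ∀ (B' : Option V → Option V → ℤ) (B : V → V → ℤ)
    (x' : Option V → ℝ) (x : V → ℝ), (∀ a c, B' (some a) (some c) = B a c) →
    (∀ a, x' (some a) = x a) → x' none = 1 →
    ∀ v, cl B' (p.map some) x' (some v) = cl B p x v := by
  induction p with
  | nil => intro B' B x' x _ hx _ v; exact hx v
  | cons k p ih =>
    intro B' B x' x hBB hx hn v
    have hex : exch B' x' (some k) = exch B x k := by
      unfold exch
      rw [Fintype.prod_option, Fintype.prod_option, hn, one_pow, one_pow, one_mul, one_mul]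
      simp only [hBB, hx]
    show cl (mutB B' (some k)) (p.map some) (mutX B' x' (some k)) (some v)
      = cl (mutB B k) p (mutX B x k) v
    apply ih
    · intro a c
      simp only [mutB, hBB, Option.some.injEq]
    · intro a
      unfold mutX
      by_cases h : a = k
      · subst h
        rw [Function.update_self, Function.update_self, hex, hx]
      · rw [Function.update_of_ne h, Function.update_of_ne (by simpa using h), hx]
    · unfold mutX
      rw [Function.update_of_ne (by simp), hn]

omit [DecidableEq V] in
lemma ev_mapDomain (x : Pt V) (D : LR (Option V)) :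
    ev x (AddMonoidAlgebra.mapDomain (fun (α : Option V → ℤ) (a : V) => α (some a)) D)
      = ev (extPt x) D := by
  induction D using AddMonoidAlgebra.induction_linear with
  | zero => simp
  | add f g hf hg => rw [AddMonoidAlgebra.mapDomain_add, map_add, map_add, hf, hg]
  | single α c =>
    rw [AddMonoidAlgebra.mapDomain_single, ev_single, ev_single]
    congr 1
    unfold mon
    rw [Fintype.prod_option]
    simp [extPt]

end Ext

theorem main_aux (n : ℕ) : ∀ (V : Type u) [Fintype V] [DecidableEq V] (B : V → V → ℤ),
    (∀ i j, B j i = - B i j) → ∀ p : List V, p.length = n → ∀ v,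
    ∃ L : LR V, ∀ x : Pt V, cl B p x.1 v = ev x L := by
  induction n using Nat.strong_induction_on with
  | _ n ih =>
  intro V _ _ B hB p hp v
  match p, hp with
  | [], _ => exact ⟨mono (Pi.single v 1), fun x => by rw [ev_mono, mon_single, zpow_one]; rfl⟩
  | [k], _ => exact ⟨U1 B k v, fun x => U1_spec B k x v⟩
  | j :: k :: p, hp =>
    by_cases hjk : j = k
    · subst hjk
      obtain ⟨L, hL⟩ := ih p.length (by simp at hp; omega) V B hB p rfl v
      refine ⟨L, fun x => ?_⟩
      rw [cl_cons, cl_cons, mutPt_mutPt hB, mutB_mutB]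
      exact hL x
    by_cases h0 : B j k = 0
    · -- the commuting case
      have h0' : B k j = 0 := by rw [hB j k, h0, neg_zero]
      have hjk' : (some j : Option V) ≠ some k := by simpa using hjk
      have hB' := extB_skew hB j
      obtain ⟨D, hD⟩ := comm_case (extB B j) (i := none) (j := some j) (k := some k)
        (by simp [extB]) (by simp [extB, Ne.symm hjk])
        (z := fun x => cl (extB B j) ((j :: k :: p).map some) x.1 (some v))
        (by
          obtain ⟨L, hL⟩ := ih (p.length + 1) (by simp at hp; omega) (Option V)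
            (mutB (extB B j) (some j)) (mutB_skew hB' _) ((k :: p).map some) (by simp) (some v)
          exact ⟨L, fun x => hL (mutPt (extB B j) (some j) x)⟩)
        (by
          obtain ⟨L, hL⟩ := ih (p.length + 1) (by simp at hp; omega) (Option V)
            (mutB (extB B j) (some k)) (mutB_skew hB' _) ((j :: p).map some) (by simp) (some v)
          refine ⟨L, fun x => ?_⟩
          rw [← hL]
          simp only [List.map_cons]
          rw [cl_cons, cl_cons, cl_cons, mutPt_comm (extB B j) hjk' h0 h0',
            mutB_comm hB' hjk' h0])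
      refine ⟨AddMonoidAlgebra.mapDomain (fun (α : Option V → ℤ) (a : V) => α (some a)) D,
        fun x => ?_⟩
      rw [ev_mapDomain, ← hD]
      exact (cl_ext (j :: k :: p) (extB B j) B (extPt x).1 x.1 (fun _ _ => rfl) (fun _ => rfl)
        rfl v).symm
    · -- the non-commuting case
      have key : ∀ (C : V → V → ℤ), (∀ i j, C j i = - C i j) → 0 < C j k →
          ∃ L : LR V, ∀ x : Pt V, cl C (j :: k :: p) x.1 v = ev x L := by
        intro C hC hpos
        obtain ⟨b, hb⟩ : ∃ b : ℕ, C j k = b := ⟨(C j k).toNat, by omega⟩
        refine cat_case hC hjk hb (by omega) (z := fun x => cl C (j :: k :: p) x.1 v) ?_ ?_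
        · obtain ⟨L, hL⟩ := ih (p.length + 1) (by simp at hp; omega) V
            (mutB C j) (mutB_skew hC _) (k :: p) (by simp) v
          exact ⟨L, fun x => hL (mutPt C j x)⟩
        · obtain ⟨L, hL⟩ := ih (p.length + 1) (by simp at hp; omega) V
            (mutB (mutB (mutB C j) k) j) (mutB_skew (mutB_skew (mutB_skew hC _) _) _)
            (j :: p) (by simp) v
          refine ⟨L, fun x => ?_⟩
          rw [← hL, cl_cons, cl_cons, cl_cons, mutPt_mutPt (mutB_skew (mutB_skew hC _) _),
            mutB_mutB]
      rcases lt_or_gt_of_ne h0 with h | h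
      · obtain ⟨L, hL⟩ := key (fun i j => - B i j) (fun i j => by rw [hB i j]) (by omega)
        refine ⟨L, fun x => ?_⟩
        rw [← hL, cl_neg]
      · exact key B hB h

/-- Clearing denominators in a Laurent polynomial. -/
lemma clear_denom {V : Type u} [Fintype V] [DecidableEq V] (L : LR V) :
    ∃ (P : MvPolynomial V ℤ) (e : V → ℕ), ∀ x : Pt V,
      ev x L * ∏ i, x.1 i ^ e i = MvPolynomial.aeval x.1 P := by
  induction L using AddMonoidAlgebra.induction_linear with
  | zero => exact ⟨0, 0, fun x => by simp⟩
  | add f g hf hg =>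
    obtain ⟨P, e, h1⟩ := hf
    obtain ⟨Q, e', h2⟩ := hg
    refine ⟨P * ∏ i, MvPolynomial.X i ^ e' i + Q * ∏ i, MvPolynomial.X i ^ e i, e + e',
      fun x => ?_⟩
    simp only [map_add, map_mul, map_prod, map_pow, MvPolynomial.aeval_X, ← h1, ← h2,
      Pi.add_apply, pow_add, Finset.prod_mul_distrib]
    ring
  | single α c =>
    refine ⟨MvPolynomial.C c * ∏ i, MvPolynomial.X i ^ (α i).toNat, fun i => (-α i).toNat,
      fun x => ?_⟩
    rw [ev_single]
    simp only [map_mul, map_prod, map_pow, MvPolynomial.aeval_X, mul_assoc]
    rw [MvPolynomial.aeval_C, mon, ← Finset.prod_mul_distrib]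
    congr 1
    refine Finset.prod_congr rfl fun i _ => ?_
    rw [← zpow_natCast, ← zpow_natCast, ← zpow_add₀ (x.2 i).ne']
    congr 1
    omega

/-- **Laurent phenomenon**: on positive points every cluster variable is given by a Laurent
polynomial with integer coefficients in the initial cluster. -/
theorem laurent_phenomenon {V : Type u} [Fintype V] [DecidableEq V] (B : V → V → ℤ)
    (hB : ∀ i j, B j i = - B i j) (p : List V) (v : V) :
    ∃ (P : MvPolynomial V ℤ) (e : V → ℕ), ∀ x : V → ℝ, (∀ i, 0 < x i) →
      cl B p x v * ∏ i, x i ^ e i = MvPolynomial.aeval x P := by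
  obtain ⟨L, hL⟩ := main_aux p.length V B hB p rfl v
  obtain ⟨P, e, h⟩ := clear_denom L
  exact ⟨P, e, fun x hx => by rw [← h ⟨x, hx⟩, ← hL]⟩

end Pool.Agent.H93.Clu
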