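import Pool.Agent.H93.Clu.Rel

/-!
Mutations at positive points, substitution, and the commuting case.
-/

namespace Pool.Agent.H93.Clu

open Pool.Agent.H28.Clu

section Matrix

variable {V : Type*} [DecidableEq V]

lemma mutB_skew {B : V → V → ℤ} (hB : ∀ i j, B j i = - B i j) (k : V) :
    ∀ i j, mutB B k j i = - mutB B k i j := by
  intro i j
  unfold mutB
  by_cases h : i = k ∨ j = k
  · rw [if_pos h, if_pos h.symm, hB i j]
  · rw [if_neg h, if_neg (fun h' => h h'.symm), hB i j, hB k j, hB i k]
    simp only [neg_neg]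
    ring

lemma mutB_mutB (B : V → V → ℤ) (k : V) : mutB (mutB B k) k = B := by
  funext i j
  by_cases h : i = k ∨ j = k
  · simp only [mutB, if_pos h, neg_neg]
  · have hi : i ≠ k := fun e => h (Or.inl e)
    have hj : j ≠ k := fun e => h (Or.inr e)
    simp only [mutB, hi, hj, or_self, or_true, true_or, if_true, if_false, neg_neg]
    ring

lemma mutB_neg (B : V → V → ℤ) (k : V) :
    mutB (fun i j => - B i j) k = fun i j => - mutB B k i j := by
  funext i j
  by_cases h : i = k ∨ j = k
  · simp only [mutB, if_pos h]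
  · simp only [mutB, if_neg h, neg_neg]
    ring

lemma mutB_comm {B : V → V → ℤ} (hB : ∀ i j, B j i = - B i j) {j k : V} (hjk : j ≠ k)
    (h0 : B j k = 0) : mutB (mutB B j) k = mutB (mutB B k) j := by
  have h0' : B k j = 0 := by rw [hB j k, h0, neg_zero]
  funext a c
  by_cases haj : a = j
  · subst haj
    by_cases hcj : c = a
    · subst hcj
      simp [mutB, hjk, h0, h0']
    · by_cases hck : c = k
      · subst hck
        simp [mutB, hjk]
      · simp [mutB, hjk, hcj, hck, h0]
  · by_cases hak : a = k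
    · subst hak
      by_cases hcj : c = j
      · subst hcj
        simp [mutB, hjk, hjk.symm]
      · by_cases hck : c = a
        · subst hck
          simp [mutB, hjk.symm, h0, h0']
        · simp [mutB, hjk.symm, hcj, hck, h0']
    · by_cases hcj : c = j
      · subst hcj
        simp [mutB, haj, hak, hjk, hjk.symm, h0, h0']
      · by_cases hck : c = k
        · subst hck
          simp [mutB, haj, hak, hjk, hjk.symm, h0, h0']
        · simp [mutB, haj, hak, hjk, hjk.symm, hcj, hck, h0, h0']
          ring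

end Matrix

section Points

variable {V : Type*} [DecidableEq V] [Fintype V]

lemma exch_eq (B : V → V → ℤ) (x : V → ℝ) (k : V) :
    exch B x k = mon x (fun i => max (B i k) 0) + mon x (fun i => max (- B i k) 0) := by
  unfold exch mon
  congr 1
  · exact Finset.prod_congr rfl fun i _ => by
      show x i ^ (B i k).toNat = x i ^ max (B i k) 0
      rw [← Int.ofNat_toNat, zpow_natCast]
  · exact Finset.prod_congr rfl fun i _ => by
      show x i ^ (- B i k).toNat = x i ^ max (- B i k) 0
      rw [← Int.ofNat_toNat, zpow_natCast]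

omit [DecidableEq V] in
lemma exch_pos (B : V → V → ℤ) (x : Pt V) (k : V) : 0 < exch B x.1 k := by
  classical
  rw [exch_eq]
  exact add_pos (mon_pos x _) (mon_pos x _)

/-- Mutation of positive points. -/
noncomputable def mutPt (B : V → V → ℤ) (k : V) (x : Pt V) : Pt V :=
  ⟨mutX B x.1 k, fun i => by
    unfold mutX
    by_cases h : i = k
    · subst h
      rw [Function.update_self]
      exact div_pos (exch_pos B x i) (x.2 i)
    · rw [Function.update_of_ne h]
      exact x.2 i⟩

lemma mutPt_self (B : V → V → ℤ) (k : V) (x : Pt V) :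
    (mutPt B k x).1 k = exch B x.1 k / x.1 k := by
  simp [mutPt, mutX]

lemma mutPt_of_ne (B : V → V → ℤ) {k i : V} (h : i ≠ k) (x : Pt V) :
    (mutPt B k x).1 i = x.1 i := by
  simp [mutPt, mutX, h]

lemma exch_congr (B : V → V → ℤ) {x y : V → ℝ} (k : V) (h : ∀ i, B i k ≠ 0 → x i = y i) :
    exch B x k = exch B y k := by
  unfold exch
  congr 1
  · refine Finset.prod_congr rfl fun i _ => ?_
    by_cases h0 : B i k = 0
    · simp [h0]
    · rw [h i h0]
  · refine Finset.prod_congr rfl fun i _ => ?_
    by_cases h0 : B i k = 0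
    · simp [h0]
    · rw [h i h0]

lemma exch_mutB_self (B : V → V → ℤ) (x : V → ℝ) (k : V) :
    exch (mutB B k) x k = exch B x k := by
  unfold exch
  rw [add_comm]
  congr 1
  · exact Finset.prod_congr rfl fun i _ => by simp [mutB]
  · exact Finset.prod_congr rfl fun i _ => by simp [mutB]

lemma mutPt_mutPt {B : V → V → ℤ} (hB : ∀ i j, B j i = - B i j) (k : V) (x : Pt V) :
    mutPt (mutB B k) k (mutPt B k x) = x := by
  have hkk : B k k = 0 := by have := hB k k; omega
  apply Subtype.ext
  funext i
  by_cases h : i = k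
  · subst h
    rw [mutPt_self, exch_mutB_self, mutPt_self]
    rw [exch_congr B (y := x.1) i (fun l hl => mutPt_of_ne B (by rintro rfl; exact hl hkk) x)]
    have h1 := (exch_pos B x i).ne'
    have h2 := (x.2 i).ne'
    field_simp
  · rw [mutPt_of_ne _ h, mutPt_of_ne _ h]

lemma cl_cons (B : V → V → ℤ) (k : V) (p : List V) (x : Pt V) :
    cl B (k :: p) x.1 = cl (mutB B k) p (mutPt B k x).1 := rfl

lemma exch_neg (B : V → V → ℤ) (x : V → ℝ) (k : V) :
    exch (fun i j => - B i j) x k = exch B x k := by
  unfold exch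
  rw [add_comm]
  congr 1
  exact Finset.prod_congr rfl fun i _ => by simp

lemma cl_neg (p : List V) : ∀ (B : V → V → ℤ) (x : V → ℝ),
    cl (fun i j => - B i j) p x = cl B p x := by
  induction p with
  | nil => intro B x; rfl
  | cons k p ih =>
    intro B x
    have h1 : mutX (fun i j => - B i j) x k = mutX B x k := by
      unfold mutX
      rw [exch_neg]
    show cl (mutB (fun i j => - B i j) k) p (mutX (fun i j => - B i j) x k)
      = cl (mutB B k) p (mutX B x k)
    rw [h1, mutB_neg, ih]

/-- The new variable after mutation in direction `k`, as a Laurent polynomial. -/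
noncomputable def q1 (B : V → V → ℤ) (k : V) : LR V :=
  mono ((fun i => max (B i k) 0) - Pi.single k 1) * (1 + mono (fun i => - B i k))

lemma mon_single (x : Pt V) (k : V) (n : ℤ) : mon x.1 (Pi.single k n) = x.1 k ^ n := by
  unfold mon
  rw [Finset.prod_eq_single k]
  · rw [Pi.single_eq_same]
  · intro i _ hi
    simp [Pi.single_eq_of_ne hi]
  · intro h
    exact absurd (Finset.mem_univ _) h

lemma mono_max_split (B : V → V → ℤ) (k : V) :
    mono (fun i => max (- B i k) 0) = mono (fun i => max (B i k) 0) * mono (fun i => - B i k) := by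
  rw [← mono_add]
  congr 1
  funext i
  simp only [Pi.add_apply]
  rcases le_total (B i k) 0 with h | h
  · rw [max_eq_left (by omega), max_eq_right h]; ring
  · rw [max_eq_right (by omega), max_eq_left h]; ring

lemma ev_q1 (B : V → V → ℤ) (k : V) (x : Pt V) : ev x (q1 B k) = (mutPt B k x).1 k := by
  rw [mutPt_self, exch_eq, q1, map_mul, map_add, map_one, ev_mono, ev_mono]
  have h1 := congrArg (ev x) (mono_max_split B k)
  rw [map_mul, ev_mono, ev_mono, ev_mono] at h1
  rw [h1, sub_eq_add_neg, mon_add, ← Pi.single_neg, mon_single]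
  rw [zpow_neg_one]
  ring

/-- Substitution of Laurent polynomials. -/
lemma subst (U : V → LR V) (φ : Pt V → Pt V) (hφ : ∀ x i, (φ x).1 i = ev x (U i)) (L : LR V) :
    ∃ (m : ℕ) (A : LR V), ∀ x, ev (φ x) L * (ev x (∏ i, U i)) ^ m = ev x A := by
  induction L using AddMonoidAlgebra.induction_linear with
  | zero => exact ⟨0, 0, fun x => by simp⟩
  | add f g hf hg =>
    obtain ⟨m, A, hA⟩ := hf
    obtain ⟨n, C, hC⟩ := hg
    refine ⟨m + n, A * (∏ i, U i) ^ n + C * (∏ i, U i) ^ m, fun x => ?_⟩
    rw [map_add, map_add, map_mul, map_mul, map_pow, map_pow, ← hA x, ← hC x]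
    ring
  | single α c =>
    refine ⟨∑ i, (α i).natAbs, (c : LR V) * ∏ i, U i ^ (α i + (∑ i, (α i).natAbs : ℕ)).toNat,
      fun x => ?_⟩
    rw [ev_single, map_mul, map_intCast, mul_assoc]
    congr 1
    rw [map_prod, map_prod, mon, ← Finset.prod_pow, ← Finset.prod_mul_distrib]
    refine Finset.prod_congr rfl fun i _ => ?_
    have h1 : (α i).natAbs ≤ ∑ i, (α i).natAbs :=
      Finset.single_le_sum (f := fun i => (α i).natAbs) (fun _ _ => Nat.zero_le _)
        (Finset.mem_univ i)
    have h2 : 0 ≤ α i + ((∑ i, (α i).natAbs : ℕ) : ℤ) := by omega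
    have h3 : ev x (U i) ≠ 0 := by
      rw [← hφ]
      exact ((φ x).2 i).ne'
    rw [map_pow, hφ, ← zpow_natCast, ← zpow_natCast, Int.toNat_of_nonneg h2, zpow_add₀ h3]

/-- If a function becomes Laurent after multiplication by powers of two coprime Laurent
polynomials, then it is Laurent. -/
lemma finish {W W' : LR V} (hW : ∀ x : Pt V, 0 < ev x W) (hrel : Rel W W')
    {z : Pt V → ℝ} (h1 : ∃ (m : ℕ) (A : LR V), ∀ x, z x * (ev x W) ^ m = ev x A)
    (h2 : ∃ (n : ℕ) (C : LR V), ∀ x, z x * (ev x W') ^ n = ev x C) :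
    ∃ D : LR V, ∀ x, z x = ev x D := by
  obtain ⟨m, A, hA⟩ := h1
  obtain ⟨n, C, hC⟩ := h2
  have hW0 : W ≠ 0 := by
    intro h
    have := hW ⟨fun _ => 1, fun _ => one_pos⟩
    rw [h, map_zero] at this
    exact lt_irrefl _ this
  have key : A * W' ^ n = W ^ m * C := by
    apply ev_ext
    intro x
    rw [map_mul, map_mul, map_pow, map_pow, ← hA x, ← hC x]
    ring
  obtain ⟨D, hD⟩ := (hrel.pow n).pow_left hW0 m A ⟨C, key⟩
  refine ⟨D, fun x => ?_⟩
  have h3 := hA x
  rw [hD, map_mul, map_pow, mul_comm] at h3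
  exact mul_left_cancel₀ (pow_ne_zero m (hW x).ne') h3

/-- The vector of substituted Laurent polynomials for one mutation. -/
noncomputable def U1 (B : V → V → ℤ) (k : V) : V → LR V :=
  Function.update (fun i => mono (Pi.single i 1)) k (q1 B k)

lemma U1_spec (B : V → V → ℤ) (k : V) (x : Pt V) (i : V) :
    (mutPt B k x).1 i = ev x (U1 B k i) := by
  by_cases h : i = k
  · subst h
    rw [U1, Function.update_self, ev_q1]
  · rw [U1, Function.update_of_ne h, mutPt_of_ne _ h, ev_mono, mon_single, zpow_one]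

lemma prod_U1 (B : V → V → ℤ) (k : V) : ∃ u : LR V, IsUnit u ∧ ∏ i, U1 B k i = u * q1 B k := by
  refine ⟨∏ i ∈ Finset.univ.erase k, mono (Pi.single i 1), ?_, ?_⟩
  · exact Finset.prod_induction _ IsUnit (fun _ _ => IsUnit.mul) isUnit_one
      (fun i _ => isUnit_mono _)
  · rw [← Finset.mul_prod_erase Finset.univ _ (Finset.mem_univ k), mul_comm, U1,
      Function.update_self]
    congr 1
    refine Finset.prod_congr rfl fun i hi => ?_
    rw [Function.update_of_ne (Finset.ne_of_mem_erase hi)]

lemma ev_prod_U1_pos (B : V → V → ℤ) (k : V) (x : Pt V) : 0 < ev x (∏ i, U1 B k i) := by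
  rw [map_prod]
  exact Finset.prod_pos fun i _ => by rw [← U1_spec]; exact (mutPt B k x).2 i

/-- The commuting case, when the two exchange polynomials are separated by the index `i`. -/
lemma comm_case (B : V → V → ℤ) {i j k : V} (hij : B i j = 1) (hik : B i k = 0)
    {z : Pt V → ℝ} (h1 : ∃ L : LR V, ∀ x, z x = ev (mutPt B j x) L)
    (h2 : ∃ L : LR V, ∀ x, z x = ev (mutPt B k x) L) : ∃ D : LR V, ∀ x, z x = ev x D := by
  obtain ⟨L1, hL1⟩ := h1
  obtain ⟨L2, hL2⟩ := h2
  obtain ⟨m, A, hA⟩ := subst (U1 B j) (mutPt B j) (U1_spec B j) L1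
  obtain ⟨n, C, hC⟩ := subst (U1 B k) (mutPt B k) (U1_spec B k) L2
  obtain ⟨u, hu, hu'⟩ := prod_U1 B j
  obtain ⟨w, hw, hw'⟩ := prod_U1 B k
  refine finish (W := ∏ i, U1 B j i) (W' := ∏ i, U1 B k i) (ev_prod_U1_pos B j) ?_
    ⟨m, A, fun x => by rw [hL1 x]; exact hA x⟩ ⟨n, C, fun x => by rw [hL2 x]; exact hC x⟩
  rw [hu', hw']
  apply Rel.unit_left hu
  apply Rel.mul (Rel.of_isUnit hw)
  have hsplit : q1 B j = mono ((fun l => max (- B l j) 0) - Pi.single j 1) *
      (1 + mono (fun l => B l j)) := by
    rw [q1, mul_add, mul_one, mul_add, mul_one, ← mono_add, ← mono_add, add_comm]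
    congr 1
    · congr 1
      funext l
      simp only [Pi.add_apply, Pi.sub_apply]
      rcases le_total (B l j) 0 with h | h
      · rw [max_eq_right h, max_eq_left (by omega)]; ring
      · rw [max_eq_left h, max_eq_right (by omega)]; ring
    · congr 1
      funext l
      simp only [Pi.add_apply, Pi.sub_apply]
      rcases le_total (B l j) 0 with h | h
      · rw [max_eq_right h, max_eq_left (by omega)]; ring
      · rw [max_eq_left h, max_eq_right (by omega)]; ring
  rw [hsplit]
  apply Rel.unit_left (isUnit_mono _)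
  rw [q1]
  apply Rel.mul (Rel.of_isUnit (isUnit_mono _))
  exact rel_key _ _ i hij (by simp [hik])

end Points

end Pool.Agent.H93.Clu
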