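import Pool.Agent.H93.Clu.Ring

/-!
`Rel f g`: multiplication by `g` is injective modulo `f`.
-/

namespace Pool.Agent.H93.Clu

open Pool.Agent.H28.Clu

/-- Multiplication by `g` is injective modulo `f`. -/
def Rel {R : Type*} [CommRing R] (f g : R) : Prop := ∀ F, f ∣ F * g → f ∣ F

section General

variable {R : Type*} [CommRing R] {f g g' : R}

lemma Rel.mul (h : Rel f g) (h' : Rel f g') : Rel f (g * g') := fun F hF => by
  apply h
  apply h'
  rwa [mul_assoc]

lemma Rel.of_isUnit (h : IsUnit g) : Rel f g := fun F hF => by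
  rwa [IsUnit.dvd_mul_right h] at hF

lemma Rel.one : Rel f 1 := Rel.of_isUnit isUnit_one

lemma Rel.pow (h : Rel f g) (n : ℕ) : Rel f (g ^ n) := by
  induction n with
  | zero => simpa using Rel.one
  | succ n ih => rw [pow_succ]; exact ih.mul h

lemma Rel.prod {ι : Type*} (s : Finset ι) (G : ι → R) (h : ∀ i ∈ s, Rel f (G i)) :
    Rel f (∏ i ∈ s, G i) := by
  classical
  induction s using Finset.induction_on with
  | empty => simpa using Rel.one
  | insert a s ha ih =>
    rw [Finset.prod_insert ha]
    exact (h a (Finset.mem_insert_self a s)).mul (ih fun i hi => h i (Finset.mem_insert_of_mem hi))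

lemma Rel.of_isCoprime (h : IsCoprime f g) : Rel f g := fun _ hF => h.dvd_of_dvd_mul_right hF

lemma Rel.unit_left {u : R} (hu : IsUnit u) (h : Rel f g) : Rel (u * f) g := fun F hF => by
  rw [hu.mul_left_dvd] at hF ⊢
  exact h F hF

lemma Rel.pow_left [IsDomain R] (hf : f ≠ 0) (h : Rel f g) (m : ℕ) :
    ∀ F, f ^ m ∣ F * g → f ^ m ∣ F := by
  induction m with
  | zero => intro F _; simp
  | succ m ih =>
    intro F hF
    obtain ⟨F', rfl⟩ := h F ((dvd_pow_self f (Nat.succ_ne_zero m)).trans hF)
    rw [pow_succ', mul_assoc, mul_dvd_mul_iff_left hf] at hF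
    rw [pow_succ', mul_dvd_mul_iff_left hf]
    exact ih F' hF

end General

section Key

variable {V : Type*} [Fintype V]

/-- `(-1)^n` for an integer `n`. -/
def sg (n : ℤ) : ℤ := ((-1 : ℤˣ) ^ n : ℤˣ)

lemma sg_add (m n : ℤ) : sg (m + n) = sg m * sg n := by simp [sg, zpow_add]
lemma sg_zero : sg 0 = 1 := by simp [sg]
lemma sg_one : sg 1 = -1 := by simp [sg]

/-- The endomorphism `x_i ↦ - x^{e_i - γ}` of the Laurent polynomial ring. -/
noncomputable def piHom (γ : V → ℤ) (i : V) : LR V →+* LR V :=
  ((AddMonoidAlgebra.lift ℤ (LR V) (V → ℤ))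
    { toFun := fun α => (sg (Multiplicative.toAdd α i) : LR V) *
        mono (Multiplicative.toAdd α - Multiplicative.toAdd α i • γ)
      map_one' := by simp [sg_zero, mono_zero]
      map_mul' := fun α β => by
        simp only [toAdd_mul, Pi.add_apply, sg_add]
        rw [show Multiplicative.toAdd α + Multiplicative.toAdd β -
          (Multiplicative.toAdd α i + Multiplicative.toAdd β i) • γ
          = (Multiplicative.toAdd α - Multiplicative.toAdd α i • γ) +
            (Multiplicative.toAdd β - Multiplicative.toAdd β i • γ) by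
            rw [add_smul]; abel, mono_add]
        push_cast
        ring }).toRingHom

omit [Fintype V] in
lemma piHom_mono (γ : V → ℤ) (i : V) (α : V → ℤ) :
    piHom γ i (mono α) = (sg (α i) : LR V) * mono (α - α i • γ) := by
  simp [piHom, mono]

omit [Fintype V] in
lemma dvd_aux (γ : V → ℤ) (n : ℤ) : (1 + mono γ) ∣ (mono (n • γ) - (sg n : LR V)) := by
  induction n using Int.induction_on with
  | zero => simp [sg_zero, mono_zero]
  | succ n ih =>
    rw [add_smul, one_smul, mono_add, sg_add, sg_one]
    have : mono ((n : ℤ) • γ) * mono γ - ((sg n * -1 : ℤ) : LR V)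
        = (mono ((n : ℤ) • γ) - (sg n : LR V)) * mono γ + (sg n : LR V) * (1 + mono γ) := by
      push_cast; ring
    rw [this]
    exact dvd_add (ih.mul_right _) (dvd_mul_left _ _)
  | pred n ih =>
    rw [← (isUnit_mono γ).dvd_mul_right]
    have h1 : mono ((-(n : ℤ) - 1) • γ) * mono γ = mono ((-(n : ℤ)) • γ) := by
      rw [← mono_add]
      congr 1
      rw [sub_smul, one_smul, sub_add_cancel]
    have h2 : sg (-(n : ℤ) - 1) = - sg (-(n : ℤ)) := by
      have : sg (-(n : ℤ)) = sg (-(n : ℤ) - 1) * sg 1 := by rw [← sg_add]; congr 1; ring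
      rw [this, sg_one]; ring
    have : (mono ((-(n : ℤ) - 1) • γ) - (sg (-(n : ℤ) - 1) : LR V)) * mono γ
        = (mono ((-(n : ℤ)) • γ) - (sg (-(n : ℤ)) : LR V)) + (sg (-(n : ℤ)) : LR V) * (1 + mono γ) := by
      rw [sub_mul, h1, h2]
      push_cast; ring
    rw [this]
    exact dvd_add ih (dvd_mul_left _ _)

omit [Fintype V] in
lemma sub_piHom_dvd (γ : V → ℤ) (i : V) (F : LR V) : (1 + mono γ) ∣ F - piHom γ i F := by
  induction F using AddMonoidAlgebra.induction_linear with
  | zero => simp
  | add f g hf hg =>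
    rw [map_add, add_sub_add_comm]
    exact dvd_add hf hg
  | single α c =>
    have h1 : (AddMonoidAlgebra.single α c : LR V) = (c : LR V) * mono α := by
      rw [← zsmul_eq_mul, mono, AddMonoidAlgebra.smul_single]
      simp
    rw [h1, map_mul, map_intCast, piHom_mono, ← mul_sub]
    apply Dvd.dvd.mul_left
    have h2 : mono α = mono (α - α i • γ) * mono (α i • γ) := by
      rw [← mono_add, sub_add_cancel]
    have h3 : mono α - (sg (α i) : LR V) * mono (α - α i • γ)
        = mono (α - α i • γ) * (mono (α i • γ) - (sg (α i) : LR V)) := by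
      conv_lhs => rw [h2]
      ring
    rw [h3]
    exact (dvd_aux γ (α i)).mul_left _

lemma one_add_mono_ne_zero (γ : V → ℤ) : (1 + mono γ : LR V) ≠ 0 := by
  intro h
  have h1 := congrArg (ev ⟨fun _ => 1, fun _ => one_pos⟩) h
  rw [map_add, map_one, ev_mono, map_zero] at h1
  have := mon_pos (⟨fun _ => 1, fun _ => one_pos⟩ : Pt V) γ
  linarith

/-- The key coprimality statement. -/
lemma rel_key (γ δ : V → ℤ) (i : V) (hγ : γ i = 1) (hδ : δ i = 0) :
    Rel (1 + mono γ : LR V) (1 + mono δ) := by
  intro F hF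
  obtain ⟨G, hG⟩ := hF
  have h1 := congrArg (piHom γ i) hG
  rw [map_mul, map_mul, map_add, map_add, map_one, piHom_mono, piHom_mono, hγ, hδ] at h1
  rw [one_smul, sub_self, zero_smul, sub_zero, sg_one, sg_zero, mono_zero] at h1
  have h2 : piHom γ i F * (1 + mono δ) = 0 := by
    rw [show (1 + mono δ : LR V) = 1 + ((1 : ℤ) : LR V) * mono δ by push_cast; ring, h1]
    push_cast
    ring
  have h3 : piHom γ i F = 0 := by
    rcases mul_eq_zero.1 h2 with h | h
    · exact h
    · exact absurd h (one_add_mono_ne_zero δ)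
  have h4 := sub_piHom_dvd γ i F
  rwa [h3, sub_zero] at h4

end Key

end Pool.Agent.H93.Clu
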