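import Pool.Agent.H28.Clu.Defs

/-!
The Laurent polynomial ring `ℤ[V → ℤ]`, its evaluation at positive real points, and a
divisibility relation used for the Laurent phenomenon.
-/

namespace Pool.Agent.H93.Clu

open Pool.Agent.H28.Clu

/-- The ring of Laurent polynomials over `ℤ` in variables indexed by `V`. -/
abbrev LR (V : Type*) := AddMonoidAlgebra ℤ (V → ℤ)

/-- The points with positive real coordinates. -/
abbrev Pt (V : Type*) := {x : V → ℝ // ∀ i, 0 < x i}

section Basic

variable {V : Type*}

/-- The monomial with exponent vector `α`. -/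
noncomputable def mono (α : V → ℤ) : LR V := AddMonoidAlgebra.single α 1

lemma mono_add (α β : V → ℤ) : mono (α + β) = mono α * mono β := by
  simp [mono, AddMonoidAlgebra.single_mul_single]

lemma mono_zero : mono (0 : V → ℤ) = 1 := rfl

lemma mono_mul_neg (α : V → ℤ) : mono α * mono (-α) = 1 := by
  rw [← mono_add, add_neg_cancel, mono_zero]

lemma isUnit_mono (α : V → ℤ) : IsUnit (mono α) :=
  IsUnit.of_mul_eq_one _ (mono_mul_neg α)

lemma mono_nsmul (n : ℕ) (α : V → ℤ) : mono (n • α) = mono α ^ n := by
  induction n with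
  | zero => simp [mono_zero]
  | succ n ih => rw [succ_nsmul, mono_add, ih, pow_succ]

variable [Fintype V]

/-- The value of the monomial with exponent vector `α` at `x`. -/
noncomputable def mon (x : V → ℝ) (α : V → ℤ) : ℝ := ∏ i, x i ^ α i

lemma mon_pos (x : Pt V) (α : V → ℤ) : 0 < mon x.1 α :=
  Finset.prod_pos fun i _ => zpow_pos (x.2 i) _

lemma mon_zero (x : V → ℝ) : mon x 0 = 1 := by simp [mon]

lemma mon_add (x : Pt V) (α β : V → ℤ) : mon x.1 (α + β) = mon x.1 α * mon x.1 β := by
  simp only [mon, Pi.add_apply]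
  rw [← Finset.prod_mul_distrib]
  exact Finset.prod_congr rfl fun i _ => zpow_add₀ (x.2 i).ne' _ _

/-- Evaluation of monomials as a monoid homomorphism. -/
noncomputable def monHom (x : Pt V) : Multiplicative (V → ℤ) →* ℝ where
  toFun α := mon x.1 (Multiplicative.toAdd α)
  map_one' := mon_zero _
  map_mul' _ _ := mon_add x _ _

/-- Evaluation of Laurent polynomials at a positive point. -/
noncomputable def ev (x : Pt V) : LR V →+* ℝ :=
  ((AddMonoidAlgebra.lift ℤ ℝ (V → ℤ)) (monHom x)).toRingHom

lemma ev_single (x : Pt V) (α : V → ℤ) (c : ℤ) :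
    ev x (AddMonoidAlgebra.single α c) = c * mon x.1 α := by
  simp [ev, monHom]

lemma ev_mono (x : Pt V) (α : V → ℤ) : ev x (mono α) = mon x.1 α := by
  simp [mono, ev_single]

/-- The point `exp u`. -/
noncomputable def expPt (u : V → ℝ) : Pt V := ⟨fun i => Real.exp (u i), fun _ => Real.exp_pos _⟩

/-- The character of the additive group `V → ℝ` attached to `α`. -/
noncomputable def chr (α : V → ℤ) : Multiplicative (V → ℝ) →* ℝ where
  toFun u := mon (expPt (Multiplicative.toAdd u)).1 α
  map_one' := by simp [mon, expPt]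
  map_mul' u v := by
    simp only [mon, expPt, toAdd_mul, Pi.add_apply, Real.exp_add, mul_zpow]
    rw [← Finset.prod_mul_distrib]

lemma chr_injective : Function.Injective (chr : (V → ℤ) → (Multiplicative (V → ℝ) →* ℝ)) := by
  classical
  intro α β h
  funext i
  have h1 := DFunLike.congr_fun h (Multiplicative.ofAdd (Pi.single i (1 : ℝ)))
  simp only [chr, mon, expPt, MonoidHom.coe_mk, OneHom.coe_mk, toAdd_ofAdd] at h1
  have key : ∀ γ : V → ℤ, (∏ j, Real.exp ((Pi.single i (1 : ℝ) : V → ℝ) j) ^ γ j)
      = Real.exp 1 ^ γ i := by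
    intro γ
    rw [Finset.prod_eq_single i]
    · rw [Pi.single_eq_same]
    · intro j _ hj
      simp [Pi.single_eq_of_ne hj]
    · intro h
      exact absurd (Finset.mem_univ _) h
  rw [key, key] at h1
  exact zpow_right_injective₀ (Real.exp_pos 1) (by simp) h1

/-- A Laurent polynomial that vanishes at all positive points is zero. -/
lemma ev_inj {L : LR V} (h : ∀ x : Pt V, ev x L = 0) : L = 0 := by
  have hli : LinearIndependent ℝ (fun α : V → ℤ => (chr α : Multiplicative (V → ℝ) → ℝ)) :=
    (linearIndependent_monoidHom (Multiplicative (V → ℝ)) ℝ).comp _ chr_injective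
  rw [linearIndependent_iff'] at hli
  have h2 := hli L.coeff.support (fun α => (L.coeff α : ℝ)) (by
    funext u
    have h3 := h (expPt (Multiplicative.toAdd u))
    have h4 : ev (expPt (Multiplicative.toAdd u)) L
        = ∑ α ∈ L.coeff.support, (L.coeff α : ℝ) * chr α u := by
      conv_lhs => rw [← AddMonoidAlgebra.sum_coeff_single L]
      rw [Finsupp.sum, map_sum]
      refine Finset.sum_congr rfl fun α _ => ?_
      rw [ev_single]
      rfl
    rw [h4] at h3
    simpa [Finset.sum_apply] using h3)
  apply AddMonoidAlgebra.coeff_injective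
  ext α
  by_cases hα : α ∈ L.coeff.support
  · have := h2 α hα
    simpa using this
  · simpa using hα

lemma ev_ext {L M : LR V} (h : ∀ x : Pt V, ev x L = ev x M) : L = M := by
  rw [← sub_eq_zero]
  refine ev_inj fun x => ?_
  rw [map_sub, h x, sub_self]

end Basic

end Pool.Agent.H93.Clu
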