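import Pool.Agent.H28.Clu.Defs

/-!
The T-system of a bipartite recurrent exchange matrix is realised by bipartite mutations.
-/

namespace Pool.Agent.H93.Clu

open Pool.Agent.H28.Clu

section Belt

variable {V : Type*} [DecidableEq V] [Fintype V] {F : Type*} [Field F]

lemma cl_append (p q : List V) : ∀ (B : V → V → ℤ) (x : V → F),
    cl B (p ++ q) x = cl (mat B p) q (cl B p x) := by
  induction p with
  | nil => intro B x; rfl
  | cons k p ih => intro B x; exact ih _ _

omit [Fintype V] in
lemma mat_append (p q : List V) : ∀ (B : V → V → ℤ), mat B (p ++ q) = mat (mat B p) q := by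
  induction p with
  | nil => intro B; rfl
  | cons k p ih => intro B; exact ih _

omit [DecidableEq V] in
lemma exch_neg' (B : V → V → ℤ) (x : V → F) (k : V) :
    exch (fun i j => - B i j) x k = exch B x k := by
  unfold exch
  rw [add_comm]
  congr 1
  exact Finset.prod_congr rfl fun i _ => by simp

/-- The contribution of a path of length two through `u`. -/
def two (B : V → V → ℤ) (a c u : V) : ℤ :=
  max (B a u) 0 * max (B u c) 0 - max (- B a u) 0 * max (- B u c) 0

/-- Mutation along a list of pairwise non-adjacent vertices: the matrix. -/
lemma mat_list (l : List V) : ∀ (B : V → V → ℤ), l.Nodup →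
    (∀ a ∈ l, ∀ c ∈ l, B a c = 0) → ∀ a c,
    mat B l a c = if a ∈ l ∨ c ∈ l then - B a c else B a c + (l.map (two B a c)).sum := by
  induction l with
  | nil => intro B _ _ a c; simp [mat]
  | cons k l ih =>
    intro B hl h a c
    rw [List.nodup_cons] at hl
    obtain ⟨hk, hl⟩ := hl
    have hkl : ∀ u ∈ l, B k u = 0 := fun u hu =>
      h k (List.mem_cons_self ..) u (List.mem_cons_of_mem _ hu)
    have hlk : ∀ u ∈ l, B u k = 0 := fun u hu =>
      h u (List.mem_cons_of_mem _ hu) k (List.mem_cons_self ..)
    have h1 : ∀ a, ∀ u ∈ l, mutB B k a u = B a u := by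
      intro a u hu
      have huk : u ≠ k := by rintro rfl; exact hk hu
      unfold mutB
      by_cases ha : a = k
      · subst ha
        rw [if_pos (Or.inl rfl), hkl u hu, neg_zero]
      · rw [if_neg (by rintro (h | h); exact ha h; exact huk h), hkl u hu]
        simp
    have h2 : ∀ c, ∀ u ∈ l, mutB B k u c = B u c := by
      intro c u hu
      have huk : u ≠ k := by rintro rfl; exact hk hu
      unfold mutB
      by_cases hc : c = k
      · subst hc
        rw [if_pos (Or.inr rfl), hlk u hu, neg_zero]
      · rw [if_neg (by rintro (h | h); exact huk h; exact hc h), hlk u hu]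
        simp
    have h3 := ih (mutB B k) hl (fun a ha c hc => by
      rw [h1 a c hc]
      exact h a (List.mem_cons_of_mem _ ha) c (List.mem_cons_of_mem _ hc)) a c
    show mat (mutB B k) l a c = _
    rw [h3]
    have h4 : (l.map (two (mutB B k) a c)).sum = (l.map (two B a c)).sum := by
      congr 1
      apply List.map_congr_left
      intro u hu
      unfold two
      rw [h1 a u hu, h2 c u hu]
    rw [h4]
    by_cases hal : a ∈ l
    · rw [if_pos (Or.inl hal), if_pos (Or.inl (List.mem_cons_of_mem _ hal)), h2 c a hal]
    · by_cases hcl : c ∈ l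
      · rw [if_pos (Or.inr hcl), if_pos (Or.inr (List.mem_cons_of_mem _ hcl)), h1 a c hcl]
      · rw [if_neg (by rintro (h | h); exact hal h; exact hcl h)]
        by_cases hk' : a = k ∨ c = k
        · rw [if_pos (by
            rcases hk' with rfl | rfl
            · exact Or.inl (List.mem_cons_self ..)
            · exact Or.inr (List.mem_cons_self ..))]
          have h5 : (l.map (two B a c)).sum = 0 := by
            apply List.sum_eq_zero
            intro z hz
            rw [List.mem_map] at hz
            obtain ⟨u, hu, rfl⟩ := hz
            unfold two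
            rcases hk' with rfl | rfl
            · rw [hkl u hu]; simp
            · rw [hlk u hu]; simp
          rw [h5, add_zero, mutB, if_pos hk']
        · rw [if_neg (by
            rintro (h | h)
            · rcases List.mem_cons.1 h with h | h
              · exact hk' (Or.inl h)
              · exact hal h
            · rcases List.mem_cons.1 h with h | h
              · exact hk' (Or.inr h)
              · exact hcl h)]
          rw [List.map_cons, List.sum_cons, mutB, if_neg hk', two]
          ring

/-- Mutation along a list of pairwise non-adjacent vertices: the cluster. -/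
lemma cl_list (l : List V) : ∀ (B : V → V → ℤ) (x : V → F), l.Nodup →
    (∀ a ∈ l, ∀ c ∈ l, B a c = 0) → ∀ a,
    cl B l x a = if a ∈ l then exch B x a / x a else x a := by
  induction l with
  | nil => intro B x _ _ a; simp [cl]
  | cons k l ih =>
    intro B x hl h a
    rw [List.nodup_cons] at hl
    obtain ⟨hk, hl⟩ := hl
    have hkl : ∀ u ∈ l, B k u = 0 := fun u hu =>
      h k (List.mem_cons_self ..) u (List.mem_cons_of_mem _ hu)
    have h1 : ∀ a, ∀ u ∈ l, mutB B k a u = B a u := by
      intro a u hu
      have huk : u ≠ k := by rintro rfl; exact hk hu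
      unfold mutB
      by_cases ha : a = k
      · subst ha
        rw [if_pos (Or.inl rfl), hkl u hu, neg_zero]
      · rw [if_neg (by rintro (h | h); exact ha h; exact huk h), hkl u hu]
        simp
    have h3 := ih (mutB B k) (mutX B x k) hl (fun a ha c hc => by
      rw [h1 a c hc]
      exact h a (List.mem_cons_of_mem _ ha) c (List.mem_cons_of_mem _ hc)) a
    show cl (mutB B k) l (mutX B x k) a = _
    rw [h3]
    by_cases hal : a ∈ l
    · have hak : a ≠ k := by rintro rfl; exact hk hal
      rw [if_pos hal, if_pos (List.mem_cons_of_mem _ hal)]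
      have h4 : mutX B x k a = x a := by rw [mutX, Function.update_of_ne hak]
      rw [h4]
      congr 1
      unfold exch
      congr 1
      · refine Finset.prod_congr rfl fun i _ => ?_
        rw [h1 i a hal]
        by_cases hik : i = k
        · subst hik; rw [hkl a hal]; simp
        · rw [mutX, Function.update_of_ne hik]
      · refine Finset.prod_congr rfl fun i _ => ?_
        rw [h1 i a hal]
        by_cases hik : i = k
        · subst hik; rw [hkl a hal]; simp
        · rw [mutX, Function.update_of_ne hik]
    · rw [if_neg hal]
      by_cases hak : a = k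
      · subst hak
        rw [if_pos (List.mem_cons_self ..), mutX, Function.update_self]
      · rw [if_neg (by
          intro h
          rcases List.mem_cons.1 h with h | h
          · exact hak h
          · exact hal h), mutX, Function.update_of_ne hak]

variable (ε : V → ℤ)

/-- The list of all vertices of colour `c`. -/
noncomputable def col (c : ℤ) : List V := (Finset.univ.filter fun v => ε v = c).toList

omit [DecidableEq V] in
lemma mem_col {c : ℤ} {v : V} : v ∈ col ε c ↔ ε v = c := by simp [col]

/-- The time in `{s, s + 1}` at which `T_v` is defined. -/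
def bel (s : ℤ) (v : V) : ℤ := s + (s + ε v) % 2

variable {ε}

/-- Mutating at all vertices of one colour changes the sign of the matrix. -/
lemma mat_col {B : V → V → ℤ} (hbip : ∀ u v, B u v ≠ 0 → ε u ≠ ε v)
    (hcomm : ∀ a c, ∑ u, max (B a u) 0 * max (B u c) 0 = ∑ u, max (- B a u) 0 * max (- B u c) 0)
    (hε : ∀ v, ε v = 0 ∨ ε v = 1) (c : ℤ) (hc : c = 0 ∨ c = 1) :
    mat B (col ε c) = fun i j => - B i j := by
  have hsame : ∀ a b, ε a = ε b → B a b = 0 := fun a b h => by
    by_contra h'
    exact hbip a b h' h
  funext a b
  rw [mat_list (col ε c) B (Finset.nodup_toList _) (fun a ha b hb =>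
    hsame a b (by rw [mem_col] at ha hb; rw [ha, hb]))]
  by_cases h : a ∈ col ε c ∨ b ∈ col ε c
  · rw [if_pos h]
  · rw [if_neg h]
    rw [mem_col, mem_col] at h
    push Not at h
    have hab : ε a = ε b := by
      rcases hε a with ha | ha <;> rcases hε b with hb | hb <;> rcases hc with rfl | rfl <;>
        simp_all
    rw [hsame a b hab, zero_add, neg_zero]
    have h1 : ((col ε c).map (two B a b)).sum = ∑ u ∈ Finset.univ.filter (fun v => ε v = c),
        two B a b u := by
      rw [col, Finset.sum_map_toList]
    rw [h1, Finset.sum_filter_of_ne]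
    · unfold two
      rw [Finset.sum_sub_distrib, hcomm, sub_self]
    · intro u _ hu
      by_contra huc
      apply hu
      have : ε a = ε u := by
        rcases hε a with ha | ha <;> rcases hε u with hb | hb <;> rcases hc with rfl | rfl <;>
          simp_all
      unfold two
      rw [hsame a u this]
      simp

/-- The T-system is realised by the bipartite belt. -/
theorem belt (B : V → V → ℤ) (hbip : ∀ u v, B u v ≠ 0 → ε u ≠ ε v)
    (hcomm : ∀ a c, ∑ u, max (B a u) 0 * max (B u c) 0 = ∑ u, max (- B a u) 0 * max (- B u c) 0)
    (hε : ∀ v, ε v = 0 ∨ ε v = 1) (x : V → F) (hne : ∀ q v, cl B q x v ≠ 0) (T : V → ℤ → F)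
    (h0 : ∀ v, T v (ε v) = x v)
    (hT : ∀ v t, Odd (t + ε v) → T v (t + 1) * T v (t - 1) = exch B (fun u => T u t) v) (s : ℤ) :
    ∃ q : List V, (∀ v, cl B q x v = T v (bel ε s v)) ∧
      mat B q = if Even s then B else fun i j => - B i j := by
  have hsame : ∀ a b, ε a = ε b → B a b = 0 := fun a b h => by
    by_contra h'
    exact hbip a b h' h
  have hneg : ∀ (a c : V), ∑ u, max (- B a u) 0 * max (- B u c) 0
      = ∑ u, max (- - B a u) 0 * max (- - B u c) 0 := by
    intro a c
    simp only [neg_neg]
    exact (hcomm a c).symm
  have hexch : ∀ C : V → V → ℤ, (C = B ∨ C = fun i j => - B i j) → ∀ (y : V → F) v,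
      exch C y v = exch B y v := by
    rintro C (rfl | rfl) y v
    · rfl
    · exact exch_neg' B y v
  have hmat : ∀ C : V → V → ℤ, (C = B ∨ C = fun i j => - B i j) → ∀ c : ℤ, (c = 0 ∨ c = 1) →
      mat C (col ε c) = fun i j => - C i j := by
    rintro C (rfl | rfl) c hc
    · exact mat_col hbip hcomm hε c hc
    · exact mat_col (fun u v h => hbip u v (by simpa using h)) hneg hε c hc
  have hsame' : ∀ C : V → V → ℤ, (C = B ∨ C = fun i j => - B i j) → ∀ a b, ε a = ε b →
      C a b = 0 := by
    rintro C (rfl | rfl) a b hab
    · exact hsame a b hab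
    · simp [hsame a b hab]
  have hexT : ∀ (s t : ℤ) (v : V), (∀ u, B u v ≠ 0 → bel ε s u = t) →
      exch B (fun u => T u (bel ε s u)) v = exch B (fun u => T u t) v := by
    intro s t v h
    unfold exch
    congr 1
    · refine Finset.prod_congr rfl fun u _ => ?_
      by_cases hu : B u v = 0
      · simp [hu]
      · simp only [h u hu]
    · refine Finset.prod_congr rfl fun u _ => ?_
      by_cases hu : B u v = 0
      · simp [hu]
      · simp only [h u hu]
  have hopp : ∀ u v, B u v ≠ 0 → ε u = 1 - ε v := by
    intro u v h
    have := hbip u v h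
    rcases hε u with h1 | h1 <;> rcases hε v with h2 | h2 <;> omega
  -- forward step
  have fwd : ∀ s : ℤ, (∃ q : List V, (∀ v, cl B q x v = T v (bel ε s v)) ∧
      mat B q = if Even s then B else fun i j => - B i j) →
      (∃ q : List V, (∀ v, cl B q x v = T v (bel ε (s + 1) v)) ∧
      mat B q = if Even (s + 1) then B else fun i j => - B i j) := by
    rintro s ⟨q, hq, hm⟩
    have hC : mat B q = B ∨ mat B q = fun i j => - B i j := by
      rw [hm]; split_ifs
      · exact Or.inl rfl
      · exact Or.inr rfl
    have hc : s % 2 = 0 ∨ s % 2 = 1 := by omega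
    refine ⟨q ++ col ε (s % 2), fun v => ?_, ?_⟩
    · rw [cl_append, cl_list (col ε (s % 2)) _ _ (Finset.nodup_toList _) (fun a ha b hb =>
        hsame' _ hC a b (by rw [mem_col] at ha hb; rw [ha, hb]))]
      by_cases hv : v ∈ col ε (s % 2)
      · rw [if_pos hv, hexch _ hC]
        rw [mem_col] at hv
        have e1 : bel ε s v = s := by unfold bel; omega
        have e2 : bel ε (s + 1) v = s + 1 + 1 := by unfold bel; omega
        have hx : cl B q x v = T v s := by rw [hq, e1]
        have hne' : T v s ≠ 0 := by rw [← hx]; exact hne q v
        have hfun : cl B q x = fun u => T u (bel ε s u) := funext hq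
        have h1 := hT v (s + 1) (by rw [Int.odd_iff]; omega)
        rw [hx, e2, div_eq_iff hne', hfun, hexT s (s + 1) v, ← h1]
        · congr 2
          ring
        · intro u hu
          have := hopp u v hu
          have := hε u
          unfold bel
          omega
      · rw [if_neg hv, hq]
        rw [mem_col] at hv
        have : bel ε s v = bel ε (s + 1) v := by
          have := hε v
          unfold bel
          omega
        rw [this]
    · rw [mat_append, hmat _ hC _ hc, hm]
      by_cases hs : Even s
      · rw [if_pos hs, if_neg (by rw [Int.even_add_one]; simpa using hs)]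
      · rw [if_neg hs, if_pos (by rw [Int.even_add_one]; exact hs)]
        funext i j
        simp
  -- backward step
  have bwd : ∀ s : ℤ, (∃ q : List V, (∀ v, cl B q x v = T v (bel ε s v)) ∧
      mat B q = if Even s then B else fun i j => - B i j) →
      (∃ q : List V, (∀ v, cl B q x v = T v (bel ε (s - 1) v)) ∧
      mat B q = if Even (s - 1) then B else fun i j => - B i j) := by
    rintro s ⟨q, hq, hm⟩
    have hC : mat B q = B ∨ mat B q = fun i j => - B i j := by
      rw [hm]; split_ifs
      · exact Or.inl rfl
      · exact Or.inr rfl
    have hc : (s - 1) % 2 = 0 ∨ (s - 1) % 2 = 1 := by omega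
    refine ⟨q ++ col ε ((s - 1) % 2), fun v => ?_, ?_⟩
    · rw [cl_append, cl_list (col ε ((s - 1) % 2)) _ _ (Finset.nodup_toList _) (fun a ha b hb =>
        hsame' _ hC a b (by rw [mem_col] at ha hb; rw [ha, hb]))]
      by_cases hv : v ∈ col ε ((s - 1) % 2)
      · rw [if_pos hv, hexch _ hC]
        rw [mem_col] at hv
        have e1 : bel ε s v = s + 1 := by unfold bel; omega
        have e2 : bel ε (s - 1) v = s - 1 := by unfold bel; omega
        have hx : cl B q x v = T v (s + 1) := by rw [hq, e1]
        have hne' : T v (s + 1) ≠ 0 := by rw [← hx]; exact hne q v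
        have hfun : cl B q x = fun u => T u (bel ε s u) := funext hq
        have h1 := hT v s (by rw [Int.odd_iff]; omega)
        rw [hx, e2, div_eq_iff hne', hfun, hexT s s v, ← h1, mul_comm]
        intro u hu
        have := hopp u v hu
        have := hε u
        unfold bel
        omega
      · rw [if_neg hv, hq]
        rw [mem_col] at hv
        have : bel ε s v = bel ε (s - 1) v := by
          have := hε v
          unfold bel
          omega
        rw [this]
    · rw [mat_append, hmat _ hC _ hc, hm]
      by_cases hs : Even s
      · rw [if_pos hs, if_neg (by rw [Int.even_sub_one]; simpa using hs)]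
      · rw [if_neg hs, if_pos (by rw [Int.even_sub_one]; exact hs)]
        funext i j
        simp
  induction s using Int.induction_on with
  | zero =>
    refine ⟨[], fun v => ?_, by simp [mat]⟩
    have : bel ε 0 v = ε v := by
      have := hε v
      unfold bel
      omega
    rw [this, h0]
    rfl
  | succ n ih => exact fwd _ ih
  | pred n ih => exact bwd _ ih

end Belt

end Pool.Agent.H93.Clu
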